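import Pool.Agent.N18.KM.Base
import Pool.Agent.N24.RW.All
import Pool.Agent.N603.TH.Vhs
import Pool.Agent.N53.CF.All

/-!
# MP_0704bf_ag: Zilber-Pink for variations of Hodge structure in families with two parameters at the
# convergents of continued fraction normal numbers

**The variations.** Let `P` be a system of polynomials in `y_1, …, y_N`, and `A_i`, `B_i` (`i ≤ n`)
polynomials in `y_1, …, y_N`, with coefficients in `ℤ[t_0, t_1]`. For integers `t_0, t_1` let
`S_t ⊂ ℂ^N` be the set of the points `y` with `P(y) = 0` and `4 A_i(y)³ + 27 B_i(y)² ≠ 0` for all `i`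
(`OnS`). Over `S_t` there are the elliptic curves `E_i : y² = x³ + A_i x + B_i` and the polarizable
variation of Hodge structure `V_t = ⊕ R¹π_{i*} ℤ`. Its period map `Φ` to `Y(1)^n = ℂ^n` is given by the
`j`-invariants (`period`); `image` is `Φ(S_t)`, and `NoAtypicalHodge` says that every irreducible
constructible subset `W` of `Φ(S_t) ∩ Z`, `Z` a special subvariety, satisfies
`dim W + (n - m) ≤ dim Z`, so that, if `dim Φ(S_t) = m`, there is no atypical special subvariety of
`S_t` for `V_t`, except possibly those contained in the singular locus `S^sing`. (These are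
definitions of the starting file `TropicalWeierstrassFamilies`, with `0` torus coordinates; constants of
`Z` are special points or integral over the ring generated by a finite set `Γ` of algebraic numbers.)

**The condition.** It is the one of `ThinParameters`.  Let `Q` be a finite system of polynomials which
vanish at all points `(Φ(y), y)`, `y ∈ S_t`, with coefficients in `ℤ[t_0, t_1]`. Let `f_1, …, f_M` be
nonzero polynomials in `t_0, t_1`, such that each coefficient of `Q` is `f_l ^ e_l · g` with
`g ∣ G_l`, and the curve `f_l = 0` has many points outside of `G_l = 0` modulo primes (`Rich`):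
either `f_l` is of degree one in one of the variables and coprime to `G_l` (`LinearIn`; for instance if
`f_l = 0` is a line), or, more generally, the sum over all primes `p` of the number of these
points modulo `p`, divided by `p ^ 2`, diverges. The tropicalization along `f_l` is the set of the
`w` in `(ℚ ∪ {∞})^(n + N)` such that for every polynomial of the system the minimum of the numbers
`e_l (coefficient) + β · w` is attained at two different exponents `β` or is infinite (`TropAt`). The
condition `GenericOrders` says that for every type of special subvarieties of `Y(1)^n` of dimension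
less than `n - m` there is an `l` such that no point of the tropicalization along `f_l` is compatible
with the type.

**Theorem.** Let `α` in `(0, 1)` be a continued fraction normal number (`IsNormal`: irrational, and its
orbit under the Gauss map `x ↦ 1/x - ⌊1/x⌋` is distributed according to the Gauss measure
`dx / ((1 + x) log 2)`), and let `p_n / q_n` be its convergents. There is ONE set `E` of natural density
zero such that for ALL families as above over `ℤ[t_0, t_1]` with the condition (all `n`, `N`, `m`, all
bases and all elliptic curves) the member at `(t_0, t_1) = (p_k, q_k)` has no atypical special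
subvarieties in the above sense, for all but finitely many `k ∉ E`.

Almost all numbers in `(0, 1)` are normal (first part of the result), and there are explicit normal
numbers (Adler, Keane and Smorodinsky); the condition on `α` does not depend on the families. The numbers of convergents with
`q_k ≤ X` is `O(log X)`, so that these are very few members. Special cases are families with ONE
parameter, evaluated at `p_k`, at `q_k`, or at a linear form `u p_k + v q_k`, and (after homogenization
of the equations) families over `ℚ(t)` evaluated at the rational numbers `t = p_k / q_k`.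

Proof. A set of integral vectors is pronull if its closure in the product of the `ℤ_p ^ 2` over the
primes `p` which do not divide `M` has Haar measure zero, for all `M`. The vectors `t` for which
`f(t) = 0` or `f(t)` has no prime divisor `p > D` which does not divide `G(t)` are a pronull set, by the
engine of helper24, helper300 and helper765. The convergents of a normal number are in a given pronull
set only for indices of density zero (project CF of helper53: the extensions of the Gauss map by the
finite groups generated by the matrices of continued fractions modulo `q` are ergodic, and frequencies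
in the extension are controlled by blocks of partial quotients; leaves by helpers 51, 279, 588, 614, 645
and 951). There are countably many
`(f, G, D)`, and a diagonal argument gives one set `E`. At places of `ℂ` above `p` the values of the
coefficients of `Q` are `e_l · v(f_l(t))`, and the tropical criterion of the starting library applies
(helper603).
-/

set_option autoImplicit false

namespace Pool.Agent.Results.MP_0704bf_ag.ConvergentsOfNormalNumbers

open MvPolynomial MeasureTheory Filter Topology Pool.Agent.R424.TG

/-- The Gauss map `x ↦ 1/x - ⌊1/x⌋`. -/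
noncomputable def gaussMap (x : ℝ) : ℝ := Int.fract x⁻¹

/-- The real number `α` is continued fraction normal: it is an irrational number in `(0, 1)`, and its
orbit under the Gauss map is distributed according to the Gauss measure. -/
def IsNormal (α : ℝ) : Prop :=
  Irrational α ∧ α ∈ Set.Ioo (0 : ℝ) 1 ∧ ∀ t : ℝ, 0 ≤ t → t ≤ 1 →
    Tendsto (fun N : ℕ => (({n : ℕ | n < N ∧ gaussMap^[n] α < t}.ncard : ℕ) : ℝ) / (N : ℝ)) atTop
      (𝓝 (Real.log (1 + t) / Real.log 2))

/-- The partial quotients: `α = [0; quotient α 0, quotient α 1, …]`. -/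
noncomputable def quotient (α : ℝ) (n : ℕ) : ℕ := ⌊(gaussMap^[n] α)⁻¹⌋₊

/-- The numerators and denominators `((p, q), (p', q'))` of the convergents number `n - 1` and `n`. -/
noncomputable def consecutive (α : ℝ) : ℕ → (ℤ × ℤ) × (ℤ × ℤ)
  | 0 => ((1, 0), (0, 1))
  | n + 1 => ((consecutive α n).2,
      ((quotient α n : ℤ) * (consecutive α n).2.1 + (consecutive α n).1.1,
        (quotient α n : ℤ) * (consecutive α n).2.2 + (consecutive α n).1.2))

/-- The vector `(p, q)` of numerator and denominator of the convergent
`p / q = [0; quotient α 0, …, quotient α (n - 1)]` of `α`. -/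
noncomputable def convergent (α : ℝ) (n : ℕ) : Fin 2 → ℤ :=
  ![(consecutive α n).2.1, (consecutive α n).2.2]

/-- `E` has natural density zero. -/
def DensityZero (E : Set ℕ) : Prop :=
  Tendsto (fun N : ℕ => (({x : ℕ | x < N ∧ x ∈ E}.ncard : ℕ) : ℝ) / (N : ℝ)) atTop (𝓝 0)

/-- The value of a polynomial in the parameters at the integral point `t`. -/
noncomputable def valueAt {s : ℕ} (t : Fin (s + 1) → ℤ) : MvPolynomial (Fin (s + 1)) ℤ →+* ℂ :=
  (Int.castRingHom ℂ).comp (eval t)

/-- `f` is of degree one in the variable `i`, and coprime to `G` with respect to this variable. -/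
def LinearIn {s : ℕ} (i : Fin (s + 1)) (f G : MvPolynomial (Fin (s + 1)) ℤ) : Prop :=
  ∃ a b u v R : MvPolynomial (Fin (s + 1)) ℤ, i ∉ a.vars ∧ i ∉ b.vars ∧ i ∉ R.vars ∧ a ≠ 0 ∧
    R ≠ 0 ∧ f = a * X i + b ∧ u * f + v * G = R

/-- The hypersurface `f = 0` has many points outside of `G = 0` modulo primes: `f` is of degree one in
a variable and coprime to `G`, or the sum over the primes `p` of the densities of the points of `f = 0`
outside of `G = 0` modulo `p` diverges. -/
def Rich {s : ℕ} (f G : MvPolynomial (Fin (s + 1)) ℤ) : Prop :=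
  (∃ i, LinearIn i f G) ∨ (f ≠ 0 ∧ ¬ Summable fun p : ℕ => if p.Prime then
    ({v : Fin (s + 1) → ZMod p | aeval v f = 0 ∧ aeval v G ≠ 0}.ncard : ℝ) / (p : ℝ) ^ (s + 1) else 0)

/-- The members with the parameters `c 0, c 1, …` of ALL families over `ℤ[t_0, …, t_s]` which satisfy
the condition have no atypical special subvarieties, apart from the indices in one set of density zero
and finitely many more, depending on the family. -/
def Good {s : ℕ} (c : ℕ → Fin (s + 1) → ℤ) : Prop :=
  ∃ E : Set ℕ, DensityZero E ∧
    ∀ (n N m M : ℕ) (κ₀ κ : Type) [Finite κ]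
      (P : κ₀ → MvPolynomial (Fin N) (MvPolynomial (Fin (s + 1)) ℤ))
      (A B : Fin n → MvPolynomial (Fin N) (MvPolynomial (Fin (s + 1)) ℤ))
      (Q : κ → MvPolynomial ((Fin n ⊕ Fin 0) ⊕ Fin N) (MvPolynomial (Fin (s + 1)) ℤ))
      (_ : ∀ (t : Fin (s + 1) → ℤ) (y : Fin N → ℂ),
        OnS (valueAt t) P A B (fun j : Fin 0 => j.elim0) y → ∀ q,
          eval₂ (valueAt t)
            (Sum.elim (period (valueAt t) A B (fun j : Fin 0 => j.elim0) y) y) (Q q) = 0)
      (f G : Fin M → MvPolynomial (Fin (s + 1)) ℤ) (_ : ∀ l, Rich (f l) (G l))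
      (e : Fin M → κ → (((Fin n ⊕ Fin 0) ⊕ Fin N) →₀ ℕ) → ℕ)
      (_ : ∀ l q, ∀ β ∈ (Q q).support, ∃ g, (Q q).coeff β = f l ^ e l q β * g ∧ g ∣ G l)
      (_ : GenericOrders m (fun q => (Q q).support) e)
      (Γ : Finset ℂ) (_ : ∀ γ ∈ Γ, IsAlgebraic ℚ γ) (K : Subfield ℂ) [Countable K]
      (_ : ∀ γ ∈ Γ, γ ∈ K),
      {x : ℕ | x ∉ E ∧ ¬ NoAtypicalHodge (algebraMap (Algebra.adjoin ℤ (Γ : Set ℂ)) ℂ) K m
        (image (valueAt (c x)) P A B fun j : Fin 0 => j.elim0)}.Finite

theorem good_of {s : ℕ} (c : ℕ → Fin (s + 1) → ℤ) (E : Set ℕ)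
    (hE : Tendsto (fun N : ℕ => (({n : ℕ | n < N ∧ n ∈ E}.ncard : ℕ) : ℝ) / (N : ℝ)) atTop (𝓝 0))
    (h : ∀ (f G : MvPolynomial (Fin (s + 1)) ℤ) (D : ℕ), f ≠ 0 → Pool.Agent.N603.TH.Divergent f G →
      {n : ℕ | n ∉ E ∧ ¬ (eval (c n) f ≠ 0 ∧ ∃ p : ℕ, p.Prime ∧ D < p ∧ (p : ℤ) ∣ eval (c n) f ∧
        ¬ (p : ℤ) ∣ eval (c n) G)}.Finite) : Good c := by
  refine ⟨E, hE, ?_⟩
  intro n N m M κ₀ κ _ P A B Q hQ f G hf e he hgen Γ hΓ K _ hΓK
  obtain ⟨D, hD⟩ := Pool.Agent.N603.TH.local_member K Q f G e he hgen Γ hΓ hΓK
  have hf' : ∀ l, f l ≠ 0 ∧ Pool.Agent.N603.TH.Divergent (f l) (G l) := by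
    intro l
    rcases hf l with ⟨i, hi⟩ | hi
    · exact ⟨Pool.Agent.N603.TH.linear_ne_zero hi, Pool.Agent.N603.TH.divergent_linear hi⟩
    · exact hi
  refine (Set.finite_iUnion fun l : Fin M => h (f l) (G l) D (hf' l).1 (hf' l).2).subset ?_
  rintro x ⟨hxE, hx⟩
  by_contra hcon
  apply hx
  have h1 := hD (c x) fun l => by_contra fun h' => hcon (Set.mem_iUnion.2 ⟨l, hxE, h'⟩)
  exact noAtypicalHodge_of h1
    (Pool.Agent.N603.TH.image_sub (c x) P A B _ Q (hQ (c x)))

theorem consecutive_eq (α : ℝ) (n : ℕ) :
    consecutive α n = Pool.Agent.N53.CF.cv (Pool.Agent.W811.Stu.dig α) n := by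
  induction n with
  | zero => rfl
  | succ n ih =>
    show ((consecutive α n).2,
      ((quotient α n : ℤ) * (consecutive α n).2.1 + (consecutive α n).1.1,
        (quotient α n : ℤ) * (consecutive α n).2.2 + (consecutive α n).1.2)) = _
    rw [ih]
    rfl

theorem result : (∀ᵐ α ∂(volume.restrict (Set.Ioo (0 : ℝ) 1)), IsNormal α) ∧
    ∀ α : ℝ, IsNormal α → Good (convergent α) := by
  refine ⟨Pool.Agent.N53.CF.t_TYP, fun α hα => ?_⟩
  have h1 : convergent α = Pool.Agent.N53.CF.cvg (Pool.Agent.W811.Stu.dig α) := by
    funext n
    unfold convergent Pool.Agent.N53.CF.cvg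
    rw [consecutive_eq]
  have h2 : Pool.Agent.N53.CF.CFNormal α := hα
  obtain ⟨E, e1, e2⟩ := Pool.Agent.N18.KM.one_set (κ := Pool.Agent.N18.KM.Dat 2) (convergent α)
    (fun x => Pool.Agent.N618.RO.Bd x.1.1 x.1.2.1 x.1.2.2) fun x => by
      rw [h1]
      exact Pool.Agent.N53.CF.main _
        (Pool.Agent.N618.RO.bd_null Pool.Agent.N24.RW.crit Pool.Agent.N24.RW.clo x.2.1 x.2.2 _) α h2
  exact good_of (s := 1) _ E e1 fun f G D h0 hd => e2 ⟨(f, G, D), h0, hd⟩

end Pool.Agent.Results.MP_0704bf_ag.ConvergentsOfNormalNumbers
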