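import Pool.Agent.N400.RO.Core
import Pool.Agent.N603.TH.Vhs

/-!
# MP_0704bf_ag: Zilber-Pink for variations of Hodge structure along random orbits of thin groups

**The variations.** Let `P` be a system of polynomials in `y_1, …, y_N`, and `A_i`, `B_i` (`i ≤ n`)
polynomials in `y_1, …, y_N`, with coefficients in `ℤ[t_1, …, t_r]`. For `t ∈ ℤ^r` let
`S_t ⊂ ℂ^N` be the set of the points `y` with `P(y) = 0` and `4 A_i(y)³ + 27 B_i(y)² ≠ 0` for all `i`
(`OnS`). Over `S_t` there are the elliptic curves `E_i : y² = x³ + A_i x + B_i` and the polarizable
variation of Hodge structure `V_t = ⊕ R¹π_{i*} ℤ`. Its period map `Φ` to `Y(1)^n = ℂ^n` is given by the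
`j`-invariants (`period`); `image` is `Φ(S_t)`, and `NoAtypicalHodge` says that every irreducible
constructible subset `W` of `Φ(S_t) ∩ Z`, `Z` a special subvariety, satisfies
`dim W + (n - m) ≤ dim Z`, so that, if `dim Φ(S_t) = m`, there is no atypical special subvariety of
`S_t` for `V_t`, except possibly those contained in the singular locus `S^sing`. (These are
definitions of the starting file `TropicalWeierstrassFamilies`, with `0` torus coordinates; constants of
`Z` are special points or integral over the ring generated by a finite set `Γ` of algebraic numbers.)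

**The condition.** Let `Q` be a finite system of polynomials which vanish at all points `(Φ(y), y)`,
`y ∈ S_t`, with coefficients in `ℤ[t_1, …, t_r]`. Let `f_1, …, f_M` be nonzero polynomials in
`t_1, …, t_r`, such that each coefficient of `Q` is `f_l ^ e_l · g` with `g ∣ G_l`, and the
hypersurface `f_l = 0` has many points outside of `G_l = 0` modulo primes (`Rich`): either `f_l` is of
degree one in one of the variables and coprime to `G_l` (`LinearIn`; for instance if `f_l = 0` is a
hyperplane), or, more generally, the sum over all primes `p` of the number of these points modulo `p`,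
divided by `p ^ r`, diverges. The tropicalization along `f_l` is the set of the `w` in
`(ℚ ∪ {∞})^(n + N)` such that for every polynomial of the system the minimum of the numbers
`e_l (coefficient) + β · w` is attained at two different exponents `β` or is infinite (`TropAt`). The
condition `GenericOrders` says that for every type of special subvarieties of `Y(1)^n` of dimension
less than `n - m` there is an `l` such that no point of the tropicalization along `f_l` is compatible
with the type. All these data are a `Family`, and `Family.Good t` says that the member at `t` has no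
atypical special subvarieties in the above sense. It follows from the condition for almost all `t`.

**Theorem.** Let `r ≥ 2`.
1. For every family with the condition the set of the exceptional `t ∈ ℤ^r` is pronull (`ProNull`):
   its closure in the product of the `ℤ_p^r` over all `p` that do not divide `M` has Haar measure zero,
   for all `M`.
2. Let `s_0, …, s_m` be matrices in `SL_r(ℤ)` which generate `SL_r(ℤ/q)` for all `q` prime to some
   `q₀` (`Walk`; by strong approximation every finite set which generates a Zariski dense subgroup is of
   this kind, for instance thin groups, of infinite index in `SL_r(ℤ)`), and let `v ∈ ℤ^r`, `v ≠ 0`. For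
   almost all infinite words `w` in the letters `0, …, m` (`words`, the uniform product measure) there
   is ONE set `E` of times of natural density zero such that for ALL families with the condition (all
   `n`, `N`, `m`, all bases and all elliptic curves) the member at
   `t = s_{w(k-1)} ⋯ s_{w(1)} s_{w(0)} v` has no atypical special subvarieties in the above sense, for
   all but finitely many `k` outside `E`. The set `E` depends on the word `w` only.

The points of the orbit up to time `k` have coordinates of exponential size in `k`, so that the
parameters are a set of logarithmic size in a box, and they are in one orbit of a group which may be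
of infinite index. The result file `ThinParameters` treats parameters which are integer parts of
generalised polynomials at integers, and the starting file `TropicalWeierstrassFamilies` families with
one parameter.

Proof. For almost all `t` in the sense of 1. the integer `f_l(t) ≠ 0` has a prime divisor `p > D` which
does not divide `G_l(t)`, for all `l` (local criterion for pronull sets, helper24 and coworkers), and
the tropical criterion of the starting library applies at places of `ℂ` above `p`. By the ergodic
theorem for random walks on the finite quotients of the orbits, a random orbit meets a pronull set only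
at a set of times of density zero; there are countably many `(f, G, D)`, and a diagonal argument gives
one set of times.
-/

set_option autoImplicit false

namespace Pool.Agent.Results.MP_0704bf_ag.RandomOrbits

open MvPolynomial Pool.Agent.R424.TG Pool.Agent.N24.RW MeasureTheory Filter Topology

/-- The value of a polynomial in the parameters at the integral point `t`. -/
noncomputable def valueAt {r : ℕ} (t : Fin r → ℤ) : MvPolynomial (Fin r) ℤ →+* ℂ :=
  (Int.castRingHom ℂ).comp (eval t)

/-- `f` is of degree one in the variable `i`, and coprime to `G` with respect to this variable. -/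
def LinearIn {r : ℕ} (i : Fin r) (f G : MvPolynomial (Fin r) ℤ) : Prop :=
  ∃ a b u v R : MvPolynomial (Fin r) ℤ, i ∉ a.vars ∧ i ∉ b.vars ∧ i ∉ R.vars ∧ a ≠ 0 ∧
    R ≠ 0 ∧ f = a * X i + b ∧ u * f + v * G = R

/-- The hypersurface `f = 0` has many points outside of `G = 0` modulo primes: `f` is of degree one in
a variable and coprime to `G`, or the sum over the primes `p` of the densities of the points of `f = 0`
outside of `G = 0` modulo `p` diverges. -/
def Rich {r : ℕ} (f G : MvPolynomial (Fin r) ℤ) : Prop :=
  (∃ i, LinearIn i f G) ∨ (f ≠ 0 ∧ ¬ Summable fun p : ℕ => if p.Prime then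
    ({v : Fin r → ZMod p | aeval v f = 0 ∧ aeval v G ≠ 0}.ncard : ℝ) / (p : ℝ) ^ r else 0)

/-- A family over `ℤ[t_1, …, t_r]` of bases `S_t` with `n` elliptic curves, with the condition on the
tropicalizations. -/
structure Family (r : ℕ) where
  /-- the number of elliptic curves -/
  n : ℕ
  /-- the dimension of the affine space which contains the bases -/
  N : ℕ
  /-- the dimension of the image of the period map -/
  m : ℕ
  /-- the number of hypersurfaces -/
  M : ℕ
  /-- the index set of the equations of the bases -/
  κ₀ : Type
  /-- the index set of the system `Q` -/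
  κ : Type
  fin : Finite κ
  /-- the equations of the bases -/
  P : κ₀ → MvPolynomial (Fin N) (MvPolynomial (Fin r) ℤ)
  /-- the coefficients of the elliptic curves -/
  A : Fin n → MvPolynomial (Fin N) (MvPolynomial (Fin r) ℤ)
  /-- the coefficients of the elliptic curves -/
  B : Fin n → MvPolynomial (Fin N) (MvPolynomial (Fin r) ℤ)
  /-- polynomials which vanish at the points `(Φ(y), y)` -/
  Q : κ → MvPolynomial ((Fin n ⊕ Fin 0) ⊕ Fin N) (MvPolynomial (Fin r) ℤ)
  vanish : ∀ (t : Fin r → ℤ) (y : Fin N → ℂ),
    OnS (valueAt t) P A B (fun j : Fin 0 => j.elim0) y → ∀ q,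
      eval₂ (valueAt t)
        (Sum.elim (period (valueAt t) A B (fun j : Fin 0 => j.elim0) y) y) (Q q) = 0
  /-- the equations of the hypersurfaces -/
  f : Fin M → MvPolynomial (Fin r) ℤ
  /-- the other factors of the coefficients -/
  G : Fin M → MvPolynomial (Fin r) ℤ
  rich : ∀ l, Rich (f l) (G l)
  /-- the orders of the coefficients along the hypersurfaces -/
  e : Fin M → κ → (((Fin n ⊕ Fin 0) ⊕ Fin N) →₀ ℕ) → ℕ
  orders : ∀ l q, ∀ β ∈ (Q q).support, ∃ g, (Q q).coeff β = f l ^ e l q β * g ∧ g ∣ G l
  generic : GenericOrders m (fun q => (Q q).support) e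
  /-- algebraic numbers -/
  Γ : Finset ℂ
  algebraic : ∀ γ ∈ Γ, IsAlgebraic ℚ γ
  /-- a countable field, for transcendence degrees -/
  K : Subfield ℂ
  countable : Countable K
  mem : ∀ γ ∈ Γ, γ ∈ K

/-- The member at `t` has no atypical intersections with special subvarieties. -/
def Family.Good {r : ℕ} (F : Family r) (t : Fin r → ℤ) : Prop :=
  NoAtypicalHodge (algebraMap (Algebra.adjoin ℤ (F.Γ : Set ℂ)) ℂ) F.K F.m
    (image (valueAt t) F.P F.A F.B fun j : Fin 0 => j.elim0)

theorem Family.bad {r : ℕ} (F : Family r) :
    (∀ l, F.f l ≠ 0 ∧ Pool.Agent.N603.TH.Divergent (F.f l) (F.G l)) ∧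
    ∃ D : ℕ, {t | ¬ F.Good t} ⊆ ⋃ l, Pool.Agent.N400.RO.Bd (F.f l) (F.G l) D := by
  have := F.fin
  have := F.countable
  constructor
  · intro l
    rcases F.rich l with ⟨i, hi⟩ | hi
    · exact ⟨Pool.Agent.N603.TH.linear_ne_zero hi, Pool.Agent.N603.TH.divergent_linear hi⟩
    · exact hi
  · obtain ⟨D, hD⟩ := Pool.Agent.N603.TH.local_member F.K F.Q F.f F.G F.e F.orders F.generic F.Γ
      F.algebraic F.mem
    refine ⟨D, fun t ht => ?_⟩
    by_contra hcon
    apply ht
    simp only [Pool.Agent.N400.RO.Bd, Set.mem_iUnion, Set.mem_ofPred_eq, not_exists, not_not]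
      at hcon
    exact noAtypicalHodge_of (hD t hcon)
      (Pool.Agent.N603.TH.image_sub t F.P F.A F.B _ F.Q (F.vanish t))

theorem result (r : ℕ) (hr : 2 ≤ r) :
    (∀ F : Family r, ProNull {t | ¬ F.Good t}) ∧
    ∀ (W : Walk (Fin r)) (v : Fin r → ℤ), v ≠ 0 → ∀ᵐ w ∂(words W.m), ∃ E : Set ℕ,
      Tendsto (fun N : ℕ => (({k : ℕ | k < N ∧ k ∈ E}.ncard : ℕ) : ℝ) / (N : ℝ)) atTop (𝓝 0) ∧
      ∀ F : Family r, {k : ℕ | k ∉ E ∧ ¬ F.Good (orb W v w k)}.Finite := by
  constructor
  · intro F
    obtain ⟨h1, D, h2⟩ := F.bad
    exact (t_CLO (Fin r)).1 _ _ h2 (Pool.Agent.N400.RO.proNull_iUnion hr _ fun l =>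
      Pool.Agent.N400.RO.proNull_Bd _ _ D (h1 l).1 (h1 l).2)
  · intro W v hv
    filter_upwards [Pool.Agent.N400.RO.one_set hr W v hv] with w hw
    obtain ⟨E, e1, e2⟩ := hw
    refine ⟨E, e1, fun F => ?_⟩
    obtain ⟨h1, D, h2⟩ := F.bad
    refine (Set.finite_iUnion fun l : Fin F.M => e2 (F.f l) (F.G l) D (h1 l).1 (h1 l).2).subset ?_
    rintro k ⟨hk, hk2⟩
    obtain ⟨l, hl⟩ := Set.mem_iUnion.1 (h2 hk2)
    exact Set.mem_iUnion.2 ⟨l, hk, hl⟩

end Pool.Agent.Results.MP_0704bf_ag.RandomOrbits
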