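import Pool.Agent.N603.TH.Sieve
import Pool.Agent.N603.TH.Vhs

/-!
# MP_0704bf_ag: one set of density zero for Zilber-Pink of variations of Hodge structure in families
with several parameters which are integer parts of real powers

**The variations.** Let `P` be a system of polynomials in `y_1, …, y_N`, and `A_i`, `B_i` (`i ≤ n`)
polynomials in `y_1, …, y_N`, with coefficients in `ℤ[t_0, …, t_s]`. For integers `t_0, …, t_s` let
`S_t ⊂ ℂ^N` be the set of the points `y` with `P(y) = 0` and `4 A_i(y)³ + 27 B_i(y)² ≠ 0` for all `i`
(`OnS`). Over `S_t` there are the elliptic curves `E_i : y² = x³ + A_i x + B_i` and the polarizable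
variation of Hodge structure `V_t = ⊕ R¹π_{i*} ℤ`. Its period map `Φ` to `Y(1)^n = ℂ^n` is given by the
`j`-invariants (`period`); `image` is `Φ(S_t)`, and `NoAtypicalHodge` says that every irreducible
constructible subset `W` of `Φ(S_t) ∩ Z`, `Z` a special subvariety, satisfies
`dim W + (n - m) ≤ dim Z`, so that, if `dim Φ(S_t) = m`, there is no atypical special subvariety of
`S_t` for `V_t`, except possibly those contained in the singular locus `S^sing`. (These are
definitions of the starting file `TropicalWeierstrassFamilies`, with `0` torus coordinates; constants of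
`Z` are special points or integral over the ring generated by a finite set `Γ` of algebraic numbers.)

**The condition.** Let `Q` be a finite system of polynomials which vanish at all points `(Φ(y), y)`,
`y ∈ S_t`, with coefficients in `ℤ[t_0, …, t_s]`. Let `f_1, …, f_M` be nonzero polynomials in
`t_0, …, t_s`, such that each coefficient of `Q` is `f_l ^ e_l · g` with `g ∣ G_l`, and the
hypersurface `f_l = 0` has many points outside of `G_l = 0` modulo primes (`Rich`): either `f_l` is of
degree one in one of the variables and coprime to `G_l` (`LinearIn`; for instance if `f_l = 0` is a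
hyperplane), or, more generally, the sum over all primes `p` of the number of these points modulo `p`,
divided by `p ^ (s + 1)`, diverges. The tropicalization along `f_l` is the set of the `w` in
`(ℚ ∪ {∞})^(n + N)` such that for every polynomial of the system the minimum of the numbers
`e_l (coefficient) + β · w` is attained at two different exponents `β` or is infinite (`TropAt`). The
condition `GenericOrders` says that for every type of special subvarieties of `Y(1)^n` of dimension
less than `n - m` there is an `l` such that no point of the tropicalization along `f_l` is compatible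
with the type.

**Theorem.** Let `P_0, P_1, P_2, …` be an infinite sequence of generalised polynomials
`P_l(x) = ∑ a_u x ^ u` (finitely many real exponents, real coefficients, depending on `l`) with
distinct leading exponents which are positive and not integers and have positive coefficients. There is
ONE set `E` of integers of natural density zero, also of relative density zero in the set of the
primes, such that for ALL `s`, all families as above over `ℤ[t_0, …, t_s]` with the condition (all
`n`, `N`, `m`, all bases and all elliptic curves), the member at `t_i = ⌊P_i(x)⌋`, `i ≤ s`, has no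
atypical special subvarieties in the above sense, for all but finitely many integers `x` outside `E`.
The set `E` depends on the `P_l` only.

The starting file `TropicalWeierstrassFamilies` is about one-parameter families. `ManyParameters` of
MP_e573c6_ag and MP_28d749_ag are about almost all parameters in a box, for subvarieties of `Y(1)^n`
and of powers of elliptic schemes; here only `N` of the `N ^ (c_0 + … + c_s)` points of the box occur.

Proof. By exponential sums the `⌊P_0(x)⌋, …, ⌊P_s(x)⌋` are jointly equidistributed modulo all
`q ≤ N^δ`, over the integers and over the primes `x ≤ N` (helper666, `Pool.Agent.N666.TM`, from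
`Pool.Agent.Y961.JR`). By Turan's sieve, for almost all `x` the integer `f(t) ≠ 0` has a prime divisor
`p > D` which does not divide `G(t)`; for polynomials of degree one in a variable the number of the
points of `f = 0` outside `G = 0` modulo `p` is estimated from below by the Schwartz-Zippel lemma. There
are countably many `(s, f, G, D)`, and a diagonal argument gives one set. At places of `ℂ` above `p`
the values of the coefficients of `Q` are `e_l · v(f_l(t))`, and the tropical criterion of the starting
library applies.
-/

set_option autoImplicit false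

namespace Pool.Agent.Results.MP_0704bf_ag.ThinParameters

open MvPolynomial Pool.Agent.R424.TG

/-- `c` is the largest exponent of the generalised polynomial `∑ a_u x ^ u`; it is positive and not an
integer and has a positive coefficient. -/
def Admissible (F : Finset ℝ) (a : ℝ → ℝ) (c : ℝ) : Prop :=
  c ∈ F ∧ (∀ u ∈ F, u ≤ c) ∧ 0 < c ∧ (∀ m : ℕ, c ≠ m) ∧ 0 < a c

/-- The parameters: the integer parts of the values at `x` of the generalised polynomials
`P_0, P_1, …`. -/
noncomputable def parameters (F : ℕ → Finset ℝ) (a : ℕ → ℝ → ℝ) (s x : ℕ) : Fin (s + 1) → ℤ :=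
  fun i => ⌊∑ u ∈ F i, a i u * (x : ℝ) ^ u⌋

/-- `E` has density zero relative to the sets `S N`. -/
def NullIn (S : ℕ → Finset ℕ) (E : Set ℕ) : Prop :=
  ∀ ε : ℝ, 0 < ε → ∃ N₀ : ℕ, ∀ N : ℕ, N₀ ≤ N →
    ({x : ℕ | x ∈ S N ∧ x ∈ E}.ncard : ℝ) ≤ ε * (S N).card

/-- The value of a polynomial in the parameters at the integral point `t`. -/
noncomputable def valueAt {s : ℕ} (t : Fin (s + 1) → ℤ) : MvPolynomial (Fin (s + 1)) ℤ →+* ℂ :=
  (Int.castRingHom ℂ).comp (eval t)

/-- `f` is of degree one in the variable `i`, and coprime to `G` with respect to this variable. -/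
def LinearIn {s : ℕ} (i : Fin (s + 1)) (f G : MvPolynomial (Fin (s + 1)) ℤ) : Prop :=
  ∃ a b u v R : MvPolynomial (Fin (s + 1)) ℤ, i ∉ a.vars ∧ i ∉ b.vars ∧ i ∉ R.vars ∧ a ≠ 0 ∧
    R ≠ 0 ∧ f = a * X i + b ∧ u * f + v * G = R

/-- The hypersurface `f = 0` has many points outside of `G = 0` modulo primes: `f` is of degree one in
a variable and coprime to `G`, or the sum over the primes `p` of the densities of the points of `f = 0`
outside of `G = 0` modulo `p` diverges. -/
def Rich {s : ℕ} (f G : MvPolynomial (Fin (s + 1)) ℤ) : Prop :=
  (∃ i, LinearIn i f G) ∨ (f ≠ 0 ∧ ¬ Summable fun p : ℕ => if p.Prime then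
    ({v : Fin (s + 1) → ZMod p | aeval v f = 0 ∧ aeval v G ≠ 0}.ncard : ℝ) / (p : ℝ) ^ (s + 1) else 0)

theorem result (F : ℕ → Finset ℝ) (a : ℕ → ℝ → ℝ) (c : ℕ → ℝ)
    (h : ∀ l, Admissible (F l) (a l) (c l)) (hc : Function.Injective c) :
    ∃ E : Set ℕ, NullIn (fun N => Finset.Ioc N (2 * N)) E ∧
      NullIn (fun N => (Finset.Ioc N (2 * N)).filter Nat.Prime) E ∧
      ∀ (s n N m M : ℕ) (κ₀ κ : Type) [Finite κ]
        (P : κ₀ → MvPolynomial (Fin N) (MvPolynomial (Fin (s + 1)) ℤ))
        (A B : Fin n → MvPolynomial (Fin N) (MvPolynomial (Fin (s + 1)) ℤ))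
        (Q : κ → MvPolynomial ((Fin n ⊕ Fin 0) ⊕ Fin N) (MvPolynomial (Fin (s + 1)) ℤ))
        (_ : ∀ (t : Fin (s + 1) → ℤ) (y : Fin N → ℂ),
          OnS (valueAt t) P A B (fun j : Fin 0 => j.elim0) y → ∀ q,
            eval₂ (valueAt t)
              (Sum.elim (period (valueAt t) A B (fun j : Fin 0 => j.elim0) y) y) (Q q) = 0)
        (f G : Fin M → MvPolynomial (Fin (s + 1)) ℤ) (_ : ∀ l, Rich (f l) (G l))
        (e : Fin M → κ → (((Fin n ⊕ Fin 0) ⊕ Fin N) →₀ ℕ) → ℕ)
        (_ : ∀ l q, ∀ β ∈ (Q q).support, ∃ g, (Q q).coeff β = f l ^ e l q β * g ∧ g ∣ G l)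
        (_ : GenericOrders m (fun q => (Q q).support) e)
        (Γ : Finset ℂ) (_ : ∀ γ ∈ Γ, IsAlgebraic ℚ γ) (K : Subfield ℂ) [Countable K]
        (_ : ∀ γ ∈ Γ, γ ∈ K),
        {x : ℕ | x ∉ E ∧ ¬ NoAtypicalHodge (algebraMap (Algebra.adjoin ℤ (Γ : Set ℂ)) ℂ) K m
          (image (valueAt (parameters F a s x)) P A B fun j : Fin 0 => j.elim0)}.Finite := by
  obtain ⟨E, e1, e2, e3⟩ := Pool.Agent.N603.TH.one_null_pol h hc
  refine ⟨E, e1, e2, ?_⟩
  intro s n N m M κ₀ κ _ P A B Q hQ f G hf e he hgen Γ hΓ K _ hΓK
  obtain ⟨D, hD⟩ := Pool.Agent.N603.TH.local_member K Q f G e he hgen Γ hΓ hΓK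
  have hf' : ∀ l, f l ≠ 0 ∧ Pool.Agent.N603.TH.Divergent (f l) (G l) := by
    intro l
    rcases hf l with ⟨i, hi⟩ | hi
    · exact ⟨Pool.Agent.N603.TH.linear_ne_zero hi, Pool.Agent.N603.TH.divergent_linear hi⟩
    · exact hi
  refine (Set.finite_iUnion fun l : Fin M => e3 s (f l) (G l) D (hf' l).1 (hf' l).2).subset ?_
  rintro x ⟨hxE, hx⟩
  by_contra hcon
  apply hx
  simp only [Set.mem_iUnion, Set.mem_ofPred_eq, not_exists, not_and, not_not] at hcon
  have h1 := hD (parameters F a s x) fun l => hcon l hxE
  exact noAtypicalHodge_of h1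
    (Pool.Agent.N603.TH.image_sub (parameters F a s x) P A B _ Q (hQ (parameters F a s x)))

end Pool.Agent.Results.MP_0704bf_ag.ThinParameters
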